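import Pool.Agent.Lib.MP_580eba_nt.PartII

/-!
A number field with finite 2-class field tower all of whose maximal 2-extensions ramified at one
prime not above two are infinite. The field is the imaginary quadratic field of discriminant
`-311619 = -3 * 7 * 11 * 19 * 71`.
-/

namespace Pool.Agent.Results.MP_580eba_nt.Counterexample

open NumberField Pool.Agent.Lib.MP_580eba_nt

theorem result : ∃ (k : Type) (_ : Field k) (_ : NumberField k),
    Module.finrank ℚ k = 2 ∧ (∃ θ : k, θ ^ 2 = -311619) ∧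
    (∀ p : Ideal (𝓞 k), p.IsPrime → p ≠ ⊥ → (2 : 𝓞 k) ∉ p →
      ¬ FiniteDimensional k (maxTwoExt k {p})) ∧ FiniteDimensional k (maxTwoExt k ∅) := by
  obtain ⟨k, _, _, inst, Q₀, h⟩ := exists_QD (K := ℚ)
    (Units.mk0 (-(∏ i, exq i : ℕ)) (by decide +kernel))
    (by rintro ⟨r, hr⟩; exact absurd (hr ▸ mul_self_nonneg r) (by decide +kernel))
  obtain rfl : inst = DivisionRing.toRatAlgebra := Subsingleton.elim _ _
  have hD : (Q₀.a : ℚ) = -(∏ i, exq i : ℕ) := congrArg Units.val h
  have hθ : Q₀.r ^ 2 = -((∏ i, exq i : ℕ) : k) := by rw [Q₀.sq, hD, map_neg, map_natCast]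
  have hN : (∏ i, exq i : ℕ) = 311619 := by decide +kernel
  refine ⟨k, inferInstance, inferInstance, Q₀.finrank, ⟨Q₀.r, ?_⟩,
    fun p => partII pat_exq (by decide +kernel) Q₀ hD, partI pat_exq Q₀.finrank hθ⟩
  rw [hθ, hN]
  norm_num

end Pool.Agent.Results.MP_580eba_nt.Counterexample
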