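import Pool.Agent.Lib.MP_580eba_nt.PartI
import Pool.Agent.Lib.MP_580eba_nt.Example

/-!
Imaginary quadratic fields with five ramified primes and finite 2-class field tower.
The hypotheses hold for the primes 3, 71, 11, 7, 19 (see `pat_exq`).
-/

namespace Pool.Agent.Results.MP_580eba_nt.FiniteTower

open Pool.Agent.Lib.MP_580eba_nt

theorem result (q : ZMod 5 → ℕ) (hp : ∀ i, (q i).Prime) (h3 : ∀ i, q i % 4 = 3)
    (hinj : Function.Injective q)
    (hsq : ∀ i j, i ≠ j → (IsSquare (q j : ZMod (q i)) ↔ j = i + 3 ∨ j = i + 4))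
    (k : Type*) [Field k] [NumberField k] (hk : Module.finrank ℚ k = 2)
    (θ : k) (hθ : θ ^ 2 = -((∏ i, q i : ℕ) : k)) :
    FiniteDimensional k (maxTwoExt k ∅) :=
  partI ⟨hp, h3, hinj, hsq⟩ hk hθ

end Pool.Agent.Results.MP_580eba_nt.FiniteTower
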